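import Pool.Agent.Q68.LM.LI
import Pool.Agent.Q151.LQ.MV

set_option autoImplicit false

/-!
# Project LM, job GF: the generating function of the symmetric sums
-/

namespace Pool.Agent.Q68.LM

open Finset MeasureTheory Filter Topology
open Pool.Agent.Q253.LM
open Pool.Agent.Q253.LQ (I0)

/-- logarithms of distinct primes are linearly independent over the rationals -/
theorem li_log {ι : Type} (P : ι → ℕ) (hP : ∀ i, (P i).Prime) (hinj : Function.Injective P) :
    LinearIndependent ℚ (fun i => Real.log (P i)) := by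
  classical
  rw [← LinearIndependent.iff_fractionRing ℤ ℚ, linearIndependent_iff']
  intro s c hc j hj
  have h1 : ∑ i ∈ s, (c i : ℝ) * Real.log (P i) = 0 := by
    rw [← hc]
    refine sum_congr rfl fun i _ => ?_
    rw [zsmul_eq_mul]
  have h3 : ∑ i ∈ s, (((c i).toNat : ℕ) : ℝ) * Real.log (P i) =
      ∑ i ∈ s, (((-c i).toNat : ℕ) : ℝ) * Real.log (P i) := by
    rw [← sub_eq_zero, ← Finset.sum_sub_distrib, ← h1]
    refine sum_congr rfl fun i _ => ?_
    rw [← sub_mul]
    congr 1
    have : ((c i).toNat : ℤ) - ((-c i).toNat : ℤ) = c i := by omega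
    exact_mod_cast this
  have hpos : ∀ i, (0 : ℝ) < P i := fun i => by exact_mod_cast (hP i).pos
  have h4 : ∀ e : ι → ℕ, ∑ i ∈ s, (e i : ℝ) * Real.log (P i) = Real.log ((∏ i ∈ s, P i ^ e i : ℕ) : ℝ) := by
    intro e
    push_cast
    rw [Real.log_prod (fun i _ => (pow_pos (hpos i) _).ne')]
    refine sum_congr rfl fun i _ => ?_
    rw [Real.log_pow]
  rw [h4, h4] at h3
  have hpp : ∀ e : ι → ℕ, 0 < ∏ i ∈ s, P i ^ e i := fun e =>
    Finset.prod_pos (fun i _ => pow_pos (hP i).pos _)
  have h5 : ∏ i ∈ s, P i ^ (c i).toNat = ∏ i ∈ s, P i ^ (-c i).toNat := by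
    have := Real.log_injOn_pos (Set.mem_Ioi.2 (by exact_mod_cast hpp _)) (Set.mem_Ioi.2 (by exact_mod_cast hpp _)) h3
    exact_mod_cast this
  have h6 : ∀ e : ι → ℕ, (∏ i ∈ s, P i ^ e i).factorization (P j) = e j := by
    intro e
    rw [Nat.factorization_prod (fun i _ => (pow_pos (hP i).pos _).ne')]
    rw [Finsupp.finsetSum_apply, Finset.sum_eq_single j]
    · rw [(hP j).factorization_pow]; simp
    · intro i _ hij
      rw [(hP i).factorization_pow, Finsupp.single_apply, if_neg]
      exact fun h => hij (hinj h)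
    · intro h; exact absurd hj h
  have h7 := congrArg (fun n => n.factorization (P j)) h5
  simp only [h6] at h7
  omega

theorem R_zero {ι : Type} (c : ι → ℝ) : R c 0 = 1 := by
  classical
  unfold R
  rw [tsum_eq_single (Fin.elim0 : Fin 0 → ι × Bool) (fun t ht => absurd (Subsingleton.elim _ _) ht), if_pos]
  · simp
  · rw [sym_iff]
    unfold NN
    simp

theorem R_odd {ι : Type} (c : ι → ℝ) (k : ℕ) (hk : Odd k) : R c k = 0 := by
  classical
  unfold R
  have h : ∀ t : Fin k → ι × Bool, (if Pool.Agent.Q253.LM.Sym t then ∏ l, c (t l).1 else 0) = 0 := by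
    intro t
    refine if_neg fun h => ?_
    rw [sym_iff] at h
    have h4 := (len_NN t).2
    rw [h] at h4
    simp only [Finsupp.support_zero, sum_empty, sub_zero] at h4
    have h5 : Even k := by exact_mod_cast h4
    exact (Nat.not_even_iff_odd.2 hk) h5
  simp only [h, tsum_zero]

/-- JOB LM-GF -/
theorem t_GF (hMN : S_MN) (hTR : S_TR) : S_GF := by
  classical
  intro ι c hc hs
  refine ⟨R_zero c, R_odd c, fun lam hlam => ?_⟩
  -- the frequencies
  have hcount : Countable ι := by
    have h1 := hs.countable_support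
    have h2 : Function.support c = Set.univ := by
      ext i
      simp [(hc i).ne']
    rw [h2] at h1
    exact Set.countable_univ_iff.1 h1
  obtain ⟨e, he⟩ := exists_injective_nat ι
  obtain ⟨P, hPd⟩ : ∃ P : ι → ℕ, P = fun i => Nat.nth Nat.Prime (e i) := ⟨_, rfl⟩
  have hP : ∀ i, (P i).Prime := fun i => by rw [hPd]; exact Nat.prime_nth_prime _
  have hPi : Function.Injective P := by
    rw [hPd]
    exact (Nat.nth_injective Nat.infinite_setOfPred_prime).comp he
  obtain ⟨g, hgd⟩ : ∃ g : ι → ℝ, g = fun i => Real.log (P i) := ⟨_, rfl⟩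
  have hg : ∀ i, 0 < g i := fun i => by
    rw [hgd]
    exact Real.log_pos (by exact_mod_cast (hP i).one_lt)
  have hli : LinearIndependent ℚ g := by
    rw [hgd]
    exact li_log P hP hPi
  have hTRk : ∀ k, T g c k = R c k := fun k => ((hTR ι g c k hc hs).2).2 (((t_LI ι g).1 hli) k)
  -- the function
  obtain ⟨f, hfd⟩ : ∃ f : ℝ → ℝ, f = fun u => ∑' i, 2 * c i * Real.cos (g i * u) := ⟨_, rfl⟩
  have hfe : ∀ u, f u = ∑' i, 2 * c i * Real.cos (g i * u) := fun u => by rw [hfd]
  have hterm : ∀ i u, ‖2 * c i * Real.cos (g i * u)‖ ≤ 2 * c i := by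
    intro i u
    have := hc i
    rw [norm_mul, Real.norm_eq_abs, Real.norm_eq_abs, abs_of_pos (by positivity)]
    calc 2 * c i * |Real.cos (g i * u)| ≤ 2 * c i * 1 := by
          gcongr
          exact Real.abs_cos_le_one _
      _ = 2 * c i := mul_one _
  have hfc : Continuous f := by
    rw [hfd]
    exact continuous_tsum (u := fun i => 2 * c i) (fun i => by fun_prop) (hs.mul_left 2) fun i u => hterm i u
  obtain ⟨B, hBd⟩ : ∃ B : ℝ, B = ∑' i, 2 * c i := ⟨_, rfl⟩
  have hB0 : 0 ≤ B := by
    rw [hBd]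
    exact tsum_nonneg fun i => by have := hc i; positivity
  have hB : ∀ u, |f u| ≤ B := by
    intro u
    rw [hfe, hBd, ← Real.norm_eq_abs]
    exact tsum_of_norm_bounded (hs.mul_left 2).hasSum fun i => hterm i u
  have hbs : Summable (fun k : ℕ => lam ^ k / (k.factorial : ℝ) * B ^ k) := by
    have := Real.summable_pow_div_factorial (lam * B)
    refine this.congr fun k => ?_
    rw [mul_pow]
    ring
  -- the powers
  have hmk : ∀ k : ℕ, Tendsto (fun U : ℝ => (1 / U) * ∫ u in (0 : ℝ)..U, f u ^ k) atTop (𝓝 (R c k)) := by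
    intro k
    have h1 := hMN ι g c (fun _ => 0) k hc hs measurable_const ⟨0, fun u => by simp⟩ tendsto_const_nhds
    rw [hTRk k] at h1
    refine h1.congr fun U => ?_
    simp only [add_zero, hfe]
  have hmb : ∀ (k : ℕ) (U : ℝ), 0 < U → |(1 / U) * ∫ u in (0 : ℝ)..U, f u ^ k| ≤ B ^ k := by
    intro k U hU
    have h1 : ‖∫ u in (0 : ℝ)..U, f u ^ k‖ ≤ B ^ k * |U - 0| := by
      refine intervalIntegral.norm_integral_le_of_norm_le_const fun u _ => ?_
      rw [norm_pow, Real.norm_eq_abs]
      exact pow_le_pow_left₀ (abs_nonneg _) (hB u) k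
    rw [sub_zero, abs_of_pos hU, Real.norm_eq_abs] at h1
    rw [abs_mul, abs_of_pos (by positivity : 0 < 1 / U)]
    calc 1 / U * |∫ u in (0 : ℝ)..U, f u ^ k| ≤ 1 / U * (B ^ k * U) := by gcongr
      _ = B ^ k := by field_simp
  have hRb : ∀ k : ℕ, |R c k| ≤ B ^ k := by
    intro k
    refine le_of_tendsto (hmk k).abs ?_
    filter_upwards [eventually_gt_atTop 0] with U hU using hmb k U hU
  have hRs : Summable (fun k : ℕ => lam ^ k / (k.factorial : ℝ) * R c k) := by
    refine Summable.of_norm_bounded hbs fun k => ?_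
    rw [norm_mul, Real.norm_eq_abs, Real.norm_eq_abs, abs_of_pos (by positivity)]
    exact mul_le_mul_of_nonneg_left (hRb k) (by positivity)
  -- the exponential
  have hexp : ∀ U : ℝ, 0 < U → (1 / U) * ∫ u in (0 : ℝ)..U, Real.exp (lam * f u) =
      ∑' k : ℕ, lam ^ k / (k.factorial : ℝ) * ((1 / U) * ∫ u in (0 : ℝ)..U, f u ^ k) := by
    intro U hU
    have h1 := intervalIntegral.hasSum_integral_of_dominated_convergence (μ := volume) (a := 0) (b := U)
      (F := fun (k : ℕ) (u : ℝ) => lam ^ k / (k.factorial : ℝ) * f u ^ k) (f := fun u => Real.exp (lam * f u))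
      (fun k _ => lam ^ k / (k.factorial : ℝ) * B ^ k) (fun k => ?_) (fun k => ?_) ?_ ?_ ?_
    · rw [← h1.tsum_eq, ← tsum_mul_left]
      refine tsum_congr fun k => ?_
      rw [intervalIntegral.integral_const_mul]
      ring
    · exact (by fun_prop : Continuous fun u : ℝ => lam ^ k / (k.factorial : ℝ) * f u ^ k).aestronglyMeasurable
    · refine Eventually.of_forall fun u _ => ?_
      rw [norm_mul, norm_pow, Real.norm_eq_abs, Real.norm_eq_abs, abs_of_pos (by positivity)]
      exact mul_le_mul_of_nonneg_left (pow_le_pow_left₀ (abs_nonneg _) (hB u) k) (by positivity)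
    · exact Eventually.of_forall fun u _ => hbs
    · exact intervalIntegrable_const
    · refine Eventually.of_forall fun u _ => ?_
      have h2 := NormedSpace.expSeries_div_hasSum_exp (𝔸 := ℝ) (lam * f u)
      rw [← Real.exp_eq_exp_ℝ] at h2
      refine h2.congr_fun fun k => ?_
      rw [mul_pow]
      ring
  have hlim : Tendsto (fun U : ℝ => (1 / U) * ∫ u in (0 : ℝ)..U, Real.exp (lam * f u)) atTop
      (𝓝 (∑' k : ℕ, lam ^ k / (k.factorial : ℝ) * R c k)) := by
    have h1 : Tendsto (fun U : ℝ => ∑' k : ℕ, lam ^ k / (k.factorial : ℝ) * ((1 / U) * ∫ u in (0 : ℝ)..U, f u ^ k))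
        atTop (𝓝 (∑' k : ℕ, lam ^ k / (k.factorial : ℝ) * R c k)) := by
      refine tendsto_tsum_of_dominated_convergence hbs (fun k => (hmk k).const_mul _) ?_
      filter_upwards [eventually_gt_atTop 0] with U hU k
      rw [norm_mul, Real.norm_eq_abs, Real.norm_eq_abs, abs_of_pos (by positivity)]
      exact mul_le_mul_of_nonneg_left (hmb k U hU) (by positivity)
    refine h1.congr' ?_
    filter_upwards [eventually_gt_atTop 0] with U hU
    rw [hexp U hU]
  have hMV := (Pool.Agent.Q151.LQ.t_MV ι g c 0 lam (fun _ => 0) hg hc hs hlam measurable_const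
    ⟨0, fun u => by simp⟩ tendsto_const_nhds).2 hli
  have hlim2 : Tendsto (fun U : ℝ => (1 / U) * ∫ u in (0 : ℝ)..U, Real.exp (lam * f u)) atTop
      (𝓝 (∏' i, (I0 ((2 * lam * c i : ℝ) : ℂ)).re)) := by
    rw [mul_zero, Real.exp_zero, one_mul] at hMV
    refine hMV.congr fun U => ?_
    simp only [zero_add, add_zero, hfe]
  have := tendsto_nhds_unique hlim hlim2
  rw [← this]
  exact hRs.hasSum

end Pool.Agent.Q68.LM
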