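import Pool.Agent.Q68.LM.TR

set_option autoImplicit false

/-!
# Project LM, job RL: relations with multiplicities
-/

namespace Pool.Agent.Q68.LM

open Finset
open Pool.Agent.Q253.LM

theorem noRel_iff {ι : Type} (g : ι → ℝ) (k : ℕ) :
    NoRel g k ↔ ∀ t : Fin k → ι × Bool, ∑ l, fr g (t l) = 0 → NN t = 0 := by
  constructor
  · intro h t ht
    refine h (NN t) ?_ (len_NN t).1 (len_NN t).2
    rw [lin_eq, lin_NN, ht]
  · intro h n h1 h2 h3
    by_contra hn
    obtain ⟨i, hi⟩ : ∃ i, n i ≠ 0 := by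
      by_contra hc
      push Not at hc
      exact hn (Finsupp.ext hc)
    obtain ⟨t, ht⟩ := ex_tuple i k n h2 h3
    apply hn
    rw [← ht]
    refine h t ?_
    rw [← lin_NN, ht, ← lin_eq]
    exact h1

/-- change of the indices in a tuple -/
def mp {ι κ : Type} {k : ℕ} (f : ι → κ) (t : Fin k → ι × Bool) : Fin k → κ × Bool := fun l => (f (t l).1, (t l).2)

theorem NN_mp {ι κ : Type} {k : ℕ} (f : ι → κ) (t : Fin k → ι × Bool) :
    NN (mp f t) = Finsupp.mapDomain f (NN t) := by
  unfold NN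
  rw [Finsupp.mapDomain_finsetSum]
  refine sum_congr rfl fun l _ => ?_
  rw [Finsupp.mapDomain_single]
  rfl

theorem fr_mp {ι κ : Type} {k : ℕ} (f : ι → κ) (g : ι → ℝ) (h : κ → ℝ) (hf : ∀ i, h (f i) = g i)
    (t : Fin k → ι × Bool) : ∑ l, fr h (mp f t l) = ∑ l, fr g (t l) := by
  refine sum_congr rfl fun l _ => ?_
  unfold fr mp
  simp only [hf]

/-- forget the multiplicity -/
def pr (m : ℝ → ℕ) (i : IdxM m) : {γ : ℝ // 0 < γ ∧ m γ ≠ 0} :=
  ⟨(i.1 : ℝ), i.1.2, by have := i.2.pos; omega⟩

/-- the first index -/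
def fst0 (m : ℝ → ℕ) (γ : {γ : ℝ // 0 < γ ∧ m γ ≠ 0}) : IdxM m :=
  ⟨⟨(γ : ℝ), γ.2.1⟩, ⟨0, Nat.pos_of_ne_zero γ.2.2⟩⟩

/-- JOB LM-RL -/
theorem t_RL : S_RL := by
  intro m k
  have hpf : ∀ γ, pr m (fst0 m γ) = γ := fun γ => rfl
  have hinj : Function.Injective (fst0 m) := fun γ δ h => by rw [← hpf γ, ← hpf δ, h]
  constructor
  · intro h
    constructor
    · rw [noRel_iff] at h ⊢
      intro t ht
      have h1 : NN (mp (fst0 m) t) = 0 := by
        refine h _ ?_
        rw [fr_mp (fst0 m) (fun γ : {γ : ℝ // 0 < γ ∧ m γ ≠ 0} => (γ : ℝ)) _ (fun γ => rfl)]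
        exact ht
      rw [NN_mp] at h1
      refine Finsupp.mapDomain_injective hinj ?_
      rw [h1, Finsupp.mapDomain_zero]
    · intro hk hk2 γ hγ
      by_contra hc
      obtain ⟨a, ha⟩ : ∃ a : IdxM m, a = ⟨⟨γ, hγ⟩, ⟨0, show 0 < m γ by omega⟩⟩ := ⟨_, rfl⟩
      obtain ⟨b, hb⟩ : ∃ b : IdxM m, b = ⟨⟨γ, hγ⟩, ⟨1, show 1 < m γ by omega⟩⟩ := ⟨_, rfl⟩
      have hab : a ≠ b := by
        intro h1
        rw [ha, hb] at h1
        simp at h1
      obtain ⟨t, ht⟩ : ∃ t : Fin 2 → IdxM m × Bool, t = ![(a, true), (b, false)] := ⟨_, rfl⟩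
      have h1 := len_NN t
      have h2 : NN t = 0 := by
        refine h (NN t) ?_ ?_ ?_
        · rw [lin_eq, lin_NN, Fin.sum_univ_two, ht, ha, hb]
          simp [fr]
        · have : (2 : ℤ) ≤ k := by exact_mod_cast hk2
          have := h1.1
          push_cast at this
          omega
        · obtain ⟨r, hr⟩ := hk
          obtain ⟨s, hs⟩ := h1.2
          push_cast at hs
          refine ⟨s + r - 1, ?_⟩
          have : (k : ℤ) = r + r := by exact_mod_cast hr
          omega
      have h3 : NN t a = 1 := by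
        classical
        rw [NN_apply, Fin.sum_univ_two, ht]
        simp [sg, hab.symm]
      rw [h2] at h3
      simp at h3
  · rintro ⟨h1, h2⟩
    rw [noRel_iff] at h1 ⊢
    intro t ht
    have h3 : NN (mp (pr m) t) = 0 := by
      refine h1 _ ?_
      rw [fr_mp (pr m) (fun i : IdxM m => (i.1 : ℝ)) _ (fun i => rfl)]
      exact ht
    rcases Nat.even_or_odd k with hk | hk
    · rcases Nat.eq_zero_or_pos k with h0 | h0
      · subst h0
        unfold NN
        simp
      · have hk2 : 2 ≤ k := by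
          obtain ⟨r, hr⟩ := hk
          omega
        have hm := h2 hk hk2
        have hpi : Function.Injective (pr m) := by
          rintro ⟨⟨γ, hγ⟩, i⟩ ⟨⟨δ, hδ⟩, j⟩ h
          have h4 : γ = δ := by
            have := congrArg Subtype.val h
            exact this
          subst h4
          have h5 : i = j := by
            apply Fin.ext
            have := hm γ hγ
            have h6 : i.val < m γ := i.2
            have h7 : j.val < m γ := j.2
            omega
          rw [h5]
        rw [NN_mp] at h3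
        refine Finsupp.mapDomain_injective hpi ?_
        rw [h3, Finsupp.mapDomain_zero]
    · exfalso
      have h4 := (len_NN (mp (pr m) t)).2
      rw [h3] at h4
      simp only [Finsupp.support_zero, sum_empty, sub_zero] at h4
      have h5 : Even k := by exact_mod_cast h4
      exact (Nat.not_even_iff_odd.2 hk) h5

end Pool.Agent.Q68.LM
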