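import Pool.Agent.Q253.LM.Stm

set_option autoImplicit false

/-!
# Project LM, job TR: symmetric tuples and zero-sum tuples
-/

namespace Pool.Agent.Q68.LM

open Finset
open Pool.Agent.Q253.LM

/-- products over tuples are summable -/
theorem sum_tuples {J : Type} (w : J → ℝ) (hw : ∀ j, 0 ≤ w j) (hs : Summable w) (k : ℕ) :
    Summable (fun t : Fin k → J => ∏ l, w (t l)) := by
  induction k with
  | zero => exact summable_of_finite_support (Set.toFinite _)
  | succ k ih =>
    rw [← (Fin.consEquiv (fun _ : Fin (k + 1) => J)).summable_iff]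
    refine (hs.mul_of_nonneg ih hw (fun t => prod_nonneg fun l _ => hw _)).congr fun x => ?_
    simp [Fin.prod_univ_succ, Fin.consEquiv]

/-- the sign -/
def sg (b : Bool) : ℤ := if b then 1 else -1

/-- the vector of the multiplicities -/
noncomputable def NN {ι : Type} {k : ℕ} (t : Fin k → ι × Bool) : ι →₀ ℤ :=
  ∑ l, Finsupp.single (t l).1 (sg (t l).2)

open Classical in
theorem NN_apply {ι : Type} {k : ℕ} (t : Fin k → ι × Bool) (i : ι) :
    NN t i = ∑ l, (if (t l).1 = i then sg (t l).2 else 0) := by
  unfold NN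
  rw [Finsupp.finsetSum_apply]
  refine sum_congr rfl fun l _ => ?_
  rw [Finsupp.single_apply]

open Classical in
theorem NN_card {ι : Type} {k : ℕ} (t : Fin k → ι × Bool) (i : ι) :
    NN t i = ((univ.filter fun l => t l = (i, true)).card : ℤ) -
      ((univ.filter fun l => t l = (i, false)).card : ℤ) := by
  rw [NN_apply, Finset.card_filter, Finset.card_filter]
  push_cast
  rw [← sum_sub_distrib]
  refine sum_congr rfl fun l _ => ?_
  obtain ⟨j, b⟩ := t l
  by_cases h : j = i
  · subst h
    cases b <;> simp [sg]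
  · simp [h]

theorem sym_iff {ι : Type} {k : ℕ} (t : Fin k → ι × Bool) :
    Pool.Agent.Q253.LM.Sym t ↔ NN t = 0 := by
  classical
  unfold Pool.Agent.Q253.LM.Sym
  constructor
  · intro h
    ext i
    rw [NN_card, h i, sub_self]
    rfl
  · intro h i
    have h1 := NN_card t i
    rw [h] at h1
    have h2 : (0 : ι →₀ ℤ) i = 0 := rfl
    rw [h2] at h1
    omega

theorem lin_eq {ι : Type} (g : ι → ℝ) (n : ι →₀ ℤ) :
    ∑ i ∈ n.support, (n i : ℝ) * g i = Finsupp.linearCombination ℤ g n := by
  rw [Finsupp.linearCombination_apply, Finsupp.sum]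
  refine sum_congr rfl fun i _ => ?_
  rw [zsmul_eq_mul]

theorem lin_NN {ι : Type} (g : ι → ℝ) {k : ℕ} (t : Fin k → ι × Bool) :
    Finsupp.linearCombination ℤ g (NN t) = ∑ l, fr g (t l) := by
  unfold NN
  rw [map_sum]
  refine sum_congr rfl fun l _ => ?_
  rw [Finsupp.linearCombination_single]
  unfold fr sg
  split_ifs <;> simp

theorem len_NN {ι : Type} {k : ℕ} (t : Fin k → ι × Bool) :
    ∑ i ∈ (NN t).support, |NN t i| ≤ (k : ℤ) ∧ Even ((k : ℤ) - ∑ i ∈ (NN t).support, |NN t i|) := by
  classical
  obtain ⟨S, hS⟩ : ∃ S : Finset ι, S = univ.image (fun l => (t l).1) := ⟨_, rfl⟩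
  have h1 : (NN t).support ⊆ S := by
    intro i hi
    by_contra hc
    rw [Finsupp.mem_support_iff] at hi
    apply hi
    rw [NN_apply]
    refine sum_eq_zero fun l _ => if_neg ?_
    intro h
    apply hc
    rw [hS, mem_image]
    exact ⟨l, mem_univ _, h⟩
  have h2 : ∑ i ∈ (NN t).support, |NN t i| = ∑ i ∈ S, |NN t i| := by
    refine sum_subset h1 fun i _ hi => ?_
    rw [Finsupp.notMem_support_iff] at hi
    rw [hi, abs_zero]
  have h3 : (k : ℤ) = ∑ i ∈ S, (((univ.filter fun l => t l = (i, true)).card : ℤ) +
      ((univ.filter fun l => t l = (i, false)).card : ℤ)) := by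
    have h4 : (univ : Finset (Fin k)).card = ∑ i ∈ S, (univ.filter fun l => (t l).1 = i).card :=
      card_eq_sum_card_fiberwise (fun l _ => by rw [hS]; exact mem_coe.2 (mem_image_of_mem _ (mem_univ _)))
    rw [card_univ, Fintype.card_fin] at h4
    have h5 : ∀ i, (univ.filter fun l => (t l).1 = i).card =
        (univ.filter fun l => t l = (i, true)).card + (univ.filter fun l => t l = (i, false)).card := by
      intro i
      rw [card_filter, card_filter, card_filter, ← sum_add_distrib]
      refine sum_congr rfl fun l _ => ?_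
      obtain ⟨j, b⟩ := t l
      by_cases h : j = i
      · subst h
        cases b <;> simp
      · simp [h]
    have h6 : k = ∑ i ∈ S, ((univ.filter fun l => t l = (i, true)).card +
        (univ.filter fun l => t l = (i, false)).card) :=
      h4.trans (sum_congr rfl fun i _ => h5 i)
    exact_mod_cast h6
  rw [h2]
  constructor
  · rw [h3]
    refine sum_le_sum fun i _ => ?_
    rw [NN_card, abs_le]
    constructor <;> omega
  · rw [h3, ← sum_sub_distrib, even_iff_two_dvd]
    refine dvd_sum fun i _ => ?_
    rw [NN_card]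
    rcases abs_cases (((univ.filter fun l => t l = (i, true)).card : ℤ) -
      ((univ.filter fun l => t l = (i, false)).card : ℤ)) with h | h <;> rw [h.1] <;> omega

theorem NN_cons {ι : Type} {k : ℕ} (x : ι × Bool) (t : Fin k → ι × Bool) :
    NN (Fin.cons x t : Fin (k + 1) → ι × Bool) = Finsupp.single x.1 (sg x.2) + NN t := by
  unfold NN
  rw [Fin.sum_univ_succ]
  simp

theorem ex_tuple {ι : Type} (i₀ : ι) (k : ℕ) : ∀ n : ι →₀ ℤ, ∑ i ∈ n.support, |n i| ≤ (k : ℤ) →
    Even ((k : ℤ) - ∑ i ∈ n.support, |n i|) → ∃ t : Fin k → ι × Bool, NN t = n := by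
  classical
  induction k with
  | zero =>
    intro n h1 _
    refine ⟨Fin.elim0, ?_⟩
    have h2 : n = 0 := by
      ext i
      by_contra hi
      have h3 : i ∈ n.support := by
        rw [Finsupp.mem_support_iff]
        exact hi
      have h4 : |n i| ≤ ∑ i ∈ n.support, |n i| :=
        single_le_sum (f := fun i => |n i|) (fun j _ => abs_nonneg _) h3
      have h5 : 0 < |n i| := abs_pos.2 hi
      push_cast at h1
      omega
    rw [h2]
    unfold NN
    simp
  | succ k ih =>
    intro n h1 h2
    by_cases hn : n = 0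
    · subst hn
      simp only [Finsupp.support_zero, sum_empty, sub_zero] at h1 h2
      obtain ⟨t, ht⟩ := ih (Finsupp.single i₀ 1) (by
        rw [Finsupp.support_single_ne_zero _ (by norm_num : (1 : ℤ) ≠ 0), sum_singleton, Finsupp.single_eq_same]
        rw [abs_one]
        rcases Nat.eq_zero_or_pos k with h | h
        · subst h
          obtain ⟨r, hr⟩ := h2
          push_cast at hr
          omega
        · exact_mod_cast h) (by
        rw [Finsupp.support_single_ne_zero _ (by norm_num : (1 : ℤ) ≠ 0), sum_singleton, Finsupp.single_eq_same]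
        rw [abs_one]
        obtain ⟨r, hr⟩ := h2
        push_cast at hr
        exact ⟨r - 1, by omega⟩)
      refine ⟨Fin.cons (i₀, false) t, ?_⟩
      rw [NN_cons, ht]
      ext i
      by_cases h : i₀ = i
      · subst h
        simp [sg]
      · simp [sg, Finsupp.single_apply, h]
    · obtain ⟨i, hi⟩ : ∃ i, n i ≠ 0 := by
        by_contra hc
        push Not at hc
        exact hn (Finsupp.ext hc)
      obtain ⟨b, hb⟩ : ∃ b : Bool, |n i - sg b| = |n i| - 1 := by
        rcases lt_or_gt_of_ne hi with h | h
        · refine ⟨false, ?_⟩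
          have : n i - sg false = n i + 1 := by simp [sg]
          rw [this, abs_of_neg h, abs_of_nonpos (by omega)]
          ring
        · refine ⟨true, ?_⟩
          have : n i - sg true = n i - 1 := by simp [sg]
          rw [this, abs_of_pos h, abs_of_nonneg (by omega)]
      obtain ⟨n', hn'⟩ : ∃ n' : ι →₀ ℤ, n' = n - Finsupp.single i (sg b) := ⟨_, rfl⟩
      have hii : i ∈ n.support := by
        rw [Finsupp.mem_support_iff]
        exact hi
      have hsub : n'.support ⊆ n.support := by
        intro j hj
        rw [Finsupp.mem_support_iff] at hj ⊢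
        by_cases h : i = j
        · subst h
          exact hi
        · rw [hn', Finsupp.sub_apply, Finsupp.single_apply, if_neg h, sub_zero] at hj
          exact hj
      have e1 : ∑ j ∈ n'.support, |n' j| = ∑ j ∈ n.support, |n' j| := by
        refine sum_subset hsub fun j _ hj => ?_
        rw [Finsupp.notMem_support_iff] at hj
        rw [hj, abs_zero]
      have e2 : ∑ j ∈ n.support, |n' j| = ∑ j ∈ n.support, |n j| - 1 := by
        rw [← add_sum_erase _ (fun j => |n' j|) hii, ← add_sum_erase _ (fun j => |n j|) hii]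
        have e3 : ∑ j ∈ n.support.erase i, |n' j| = ∑ j ∈ n.support.erase i, |n j| := by
          refine sum_congr rfl fun j hj => ?_
          rw [hn', Finsupp.sub_apply, Finsupp.single_apply, if_neg (ne_of_mem_erase hj).symm, sub_zero]
        rw [e3, hn', Finsupp.sub_apply, Finsupp.single_eq_same, hb]
        ring
      obtain ⟨t, ht⟩ := ih n' (by rw [e1, e2]; push_cast at h1; omega) (by
        rw [e1, e2]
        obtain ⟨r, hr⟩ := h2
        push_cast at hr
        exact ⟨r, by omega⟩)
      refine ⟨Fin.cons (i, b) t, ?_⟩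
      rw [NN_cons, ht, hn']
      simp

/-- JOB LM-TR -/
theorem t_TR : S_TR := by
  classical
  intro ι g c k hc hs
  obtain ⟨w, hw⟩ : ∃ w : ι × Bool → ℝ, w = fun j => c j.1 := ⟨_, rfl⟩
  have hwe : ∀ j, w j = c j.1 := fun j => by rw [hw]
  have hwpos : ∀ j, 0 < w j := fun j => by rw [hwe]; exact hc _
  have hws : Summable w := by
    have h1 : Summable (fun b : Bool => (1 : ℝ)) := summable_of_finite_support (Set.toFinite _)
    have h2 := hs.mul_of_nonneg h1 (fun i => (hc i).le) (fun _ => zero_le_one)
    rw [hw]
    exact h2.congr fun j => by simp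
  have hP := sum_tuples w (fun j => (hwpos j).le) hws k
  have hPpos : ∀ t : Fin k → ι × Bool, 0 < ∏ l, c (t l).1 := fun t => prod_pos fun l _ => hc _
  have hP' : Summable (fun t : Fin k → ι × Bool => ∏ l, c (t l).1) := by
    refine hP.congr fun t => prod_congr rfl fun l _ => hwe _
  have hT : Summable (fun t : Fin k → ι × Bool => if ∑ l, fr g (t l) = 0 then ∏ l, c (t l).1 else 0) := by
    refine Summable.of_nonneg_of_le (fun t => ?_) (fun t => ?_) hP'
    · split_ifs
      · exact (hPpos t).le
      · exact le_rfl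
    · split_ifs
      · exact le_rfl
      · exact (hPpos t).le
  have hR : Summable (fun t : Fin k → ι × Bool => if Pool.Agent.Q253.LM.Sym t then ∏ l, c (t l).1 else 0) := by
    refine Summable.of_nonneg_of_le (fun t => ?_) (fun t => ?_) hP'
    · split_ifs
      · exact (hPpos t).le
      · exact le_rfl
    · split_ifs
      · exact le_rfl
      · exact (hPpos t).le
  have hsym : ∀ t : Fin k → ι × Bool, Pool.Agent.Q253.LM.Sym t → ∑ l, fr g (t l) = 0 := by
    intro t ht
    rw [sym_iff] at ht
    rw [← lin_NN, ht, map_zero]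
  have hle : ∀ t : Fin k → ι × Bool, (if Pool.Agent.Q253.LM.Sym t then ∏ l, c (t l).1 else 0) ≤
      (if ∑ l, fr g (t l) = 0 then ∏ l, c (t l).1 else 0) := by
    intro t
    by_cases h : Pool.Agent.Q253.LM.Sym t
    · rw [if_pos h, if_pos (hsym t h)]
    · rw [if_neg h]
      split_ifs
      · exact (hPpos t).le
      · exact le_rfl
  constructor
  · exact hR.tsum_le_tsum hle hT
  constructor
  · intro h n h1 h2 h3
    by_contra hn
    obtain ⟨i, hi⟩ : ∃ i, n i ≠ 0 := by
      by_contra hc
      push Not at hc
      exact hn (Finsupp.ext hc)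
    obtain ⟨t, ht⟩ := ex_tuple i k n h2 h3
    have h4 : ∑ l, fr g (t l) = 0 := by
      rw [← lin_NN, ht, ← lin_eq]
      exact h1
    have h5 : ¬ Pool.Agent.Q253.LM.Sym t := by
      rw [sym_iff, ht]
      exact hn
    have h6 : R c k < T g c k := by
      refine hR.tsum_lt_tsum (i := t) hle ?_ hT
      rw [if_neg h5, if_pos h4]
      exact hPpos t
    rw [h] at h6
    exact lt_irrefl _ h6
  · intro h
    unfold T R
    refine tsum_congr fun t => ?_
    by_cases h1 : ∑ l, fr g (t l) = 0
    · have h2 : Pool.Agent.Q253.LM.Sym t := by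
        rw [sym_iff]
        refine h (NN t) ?_ (len_NN t).1 (len_NN t).2
        rw [lin_eq, lin_NN, h1]
      rw [if_pos h1, if_pos h2]
    · have h2 : ¬ Pool.Agent.Q253.LM.Sym t := fun h2 => h1 (hsym t h2)
      rw [if_neg h1, if_neg h2]

end Pool.Agent.Q68.LM
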