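import Pool.Agent.Q68.LM.TR

set_option autoImplicit false

/-!
# Project LM, job TT: both signs and multiplicities
-/

namespace Pool.Agent.Q68.LM

open Finset
open Pool.Agent.Q253.LM

/-- from indices with signs to reals with multiplicities -/
def phi (m : ℝ → ℕ) (hm : ∀ x, m (-x) = m x) : IdxM m × Bool → Σ x : ℝ, Fin (m x)
  | (⟨γ, j⟩, true) => ⟨γ, j⟩
  | (⟨γ, j⟩, false) => ⟨-γ, Fin.cast (hm γ).symm j⟩

theorem sig_ext {m : ℝ → ℕ} {p q : Σ x : ℝ, Fin (m x)} (h1 : p.1 = q.1) (h2 : p.2.val = q.2.val) : p = q := by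
  obtain ⟨x, i⟩ := p
  obtain ⟨y, j⟩ := q
  simp only at h1
  subst h1
  have : i = j := Fin.ext h2
  rw [this]

theorem phi_bij (m : ℝ → ℕ) (hm : ∀ x, m (-x) = m x) (h0 : m 0 = 0) : Function.Bijective (phi m hm) := by
  constructor
  · rintro ⟨⟨⟨γ, hγ⟩, j⟩, b⟩ ⟨⟨⟨δ, hδ⟩, i⟩, c⟩ h
    have h1 : (phi m hm (⟨⟨γ, hγ⟩, j⟩, b)).1 = (phi m hm (⟨⟨δ, hδ⟩, i⟩, c)).1 := by rw [h]
    have h2 : (phi m hm (⟨⟨γ, hγ⟩, j⟩, b)).2.val = (phi m hm (⟨⟨δ, hδ⟩, i⟩, c)).2.val := by rw [h]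
    cases b <;> cases c <;> simp only [phi] at h1 h2
    · have h3 : γ = δ := by linarith
      subst h3
      have h4 : j = i := Fin.ext (by simpa using h2)
      rw [h4]
    · exfalso; linarith
    · exfalso; linarith
    · subst h1
      have h4 : j = i := Fin.ext h2
      rw [h4]
  · rintro ⟨x, j⟩
    rcases lt_trichotomy x 0 with h | h | h
    · refine ⟨(⟨⟨-x, by linarith⟩, Fin.cast (hm x).symm j⟩, false), ?_⟩
      exact sig_ext (by simp [phi]) (by simp [phi])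
    · subst h
      rw [h0] at j
      exact j.elim0
    · exact ⟨(⟨⟨x, h⟩, j⟩, true), rfl⟩

/-- tuples of reals with multiplicities -/
def tup (m : ℝ → ℕ) (k : ℕ) :
    (Σ s : Fin k → ℝ, ∀ l, Fin (m (s l))) ≃ (Fin k → Σ x : ℝ, Fin (m x)) where
  toFun p := fun l => ⟨p.1 l, p.2 l⟩
  invFun t := ⟨fun l => (t l).1, fun l => (t l).2⟩
  left_inv _ := rfl
  right_inv _ := rfl

/-- JOB LM-TT -/
theorem t_TT : S_TT := by
  intro m w k hm h0 hw hw0 hs
  obtain ⟨F, hF⟩ : ∃ F : (Fin k → Σ x : ℝ, Fin (m x)) → ℝ,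
    F = fun u => if ∑ l, (u l).1 = 0 then ∏ l, w (u l).1 else 0 := ⟨_, rfl⟩
  have hFe : ∀ u, F u = if ∑ l, (u l).1 = 0 then ∏ l, w (u l).1 else 0 := fun u => by rw [hF]
  have hJ : Summable (fun p : Σ x : ℝ, Fin (m x) => w p.1) := by
    rw [summable_sigma_of_nonneg (fun p => hw0 _)]
    refine ⟨fun x => summable_of_finite_support (Set.toFinite _), ?_⟩
    refine hs.congr fun x => ?_
    rw [tsum_fintype]
    simp
  have hP := sum_tuples (fun p : Σ x : ℝ, Fin (m x) => w p.1) (fun p => hw0 _) hJ k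
  have hP0 : ∀ u : Fin k → Σ x : ℝ, Fin (m x), 0 ≤ ∏ l, w (u l).1 := fun u => prod_nonneg fun l _ => hw0 _
  have hFs : Summable F := by
    refine Summable.of_nonneg_of_le (fun u => ?_) (fun u => ?_) hP
    · rw [hFe]
      split_ifs
      · exact hP0 u
      · exact le_rfl
    · rw [hFe]
      split_ifs
      · exact le_rfl
      · exact hP0 u
  have e1 : T (fun i : IdxM m => (i.1 : ℝ)) (fun i : IdxM m => w (i.1 : ℝ)) k = ∑' u, F u := by
    unfold T
    rw [← (Equiv.piCongrRight (fun _ : Fin k => Equiv.ofBijective _ (phi_bij m hm h0))).tsum_eq F]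
    refine tsum_congr fun t => ?_
    rw [hFe]
    have h1 : ∀ p : IdxM m × Bool, fr (fun i : IdxM m => (i.1 : ℝ)) p = (phi m hm p).1 := by
      rintro ⟨⟨⟨γ, hγ⟩, j⟩, b⟩
      cases b <;> simp [phi, fr]
    have h2 : ∀ p : IdxM m × Bool, w (p.1.1 : ℝ) = w (phi m hm p).1 := by
      rintro ⟨⟨⟨γ, hγ⟩, j⟩, b⟩
      cases b
      · simp only [phi]
        rw [hw]
      · simp only [phi]
    simp only [h1, h2]
    rfl
  rw [e1, ← (tup m k).tsum_eq F]
  have hFs' : Summable (fun p => F (tup m k p)) := (tup m k).summable_iff.2 hFs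
  rw [hFs'.tsum_sigma' (fun s => summable_of_finite_support (Set.toFinite _))]
  refine tsum_congr fun s => ?_
  rw [tsum_fintype]
  have e2 : ∀ f : ∀ l, Fin (m (s l)), F (tup m k ⟨s, f⟩) = if ∑ l, s l = 0 then ∏ l, w (s l) else 0 := by
    intro f
    rw [hFe]
    rfl
  simp only [e2]
  rw [sum_const, card_univ, Fintype.card_pi, nsmul_eq_mul]
  simp only [Fintype.card_fin]
  split_ifs
  · rw [prod_mul_distrib]
    push_cast
    rfl
  · rw [mul_zero]

end Pool.Agent.Q68.LM
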