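import Pool.Agent.Q68.LM.TR

set_option autoImplicit false

/-!
# Project LM, job LI: linear independence is the absence of relations of any length
-/

namespace Pool.Agent.Q68.LM

open Finset
open Pool.Agent.Q253.LM

/-- JOB LM-LI -/
theorem t_LI : S_LI := by
  intro ι g
  rw [← LinearIndependent.iff_fractionRing ℤ ℚ, linearIndependent_iff]
  constructor
  · intro h k n h1 _ _
    rw [lin_eq] at h1
    exact h n h1
  · intro h n h1
    rw [← lin_eq] at h1
    have h0 : 0 ≤ ∑ i ∈ n.support, |n i| := sum_nonneg fun i _ => abs_nonneg _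
    have e : (((∑ i ∈ n.support, |n i|).toNat : ℕ) : ℤ) = ∑ i ∈ n.support, |n i| := Int.toNat_of_nonneg h0
    exact h (∑ i ∈ n.support, |n i|).toNat n h1 e.ge (by rw [e, sub_self]; exact Even.zero)

end Pool.Agent.Q68.LM
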